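import Mathlib

set_option autoImplicit false

namespace Pool.Agent.H377Z.Plac

open FirstOrder FreeMonoid

/-- The Knuth relations `xzy = zxy` for `x ≤ y < z` and `yxz = yzx` for `x < y ≤ z`. -/
inductive Knuth {A : Type} [LinearOrder A] : FreeMonoid A → FreeMonoid A → Prop
  | left (x y z : A) : x ≤ y → y < z → Knuth (of x * of z * of y) (of z * of x * of y)
  | right (x y z : A) : x < y → y ≤ z → Knuth (of y * of x * of z) (of y * of z * of x)

/-- The plactic monoid: the free monoid on `A` modulo the congruence generated by the Knuth
relations. -/
abbrev Plactic (A : Type) [LinearOrder A] : Type := PresentedMonoid (Knuth (A := A))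

/-- The function symbols: the identity, the product, and a constant for each `c : C`. -/
inductive MSym (C : Type) : ℕ → Type
  | one : MSym C 0
  | mul : MSym C 2
  | gen (c : C) : MSym C 0

/-- The first-order language of monoids with constants named by `C`; the only predicate is
equality. -/
def LMon (C : Type) : FirstOrder.Language := ⟨MSym C, fun _ => Empty⟩

/-- The plactic monoid as a structure: the constant `c` names the generator `ι c`. -/
@[reducible] def plStructure {A : Type} [LinearOrder A] {C : Type} (ι : C → A) :
    (LMon C).Structure (Plactic A) where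
  funMap := fun {n} (f : MSym C n) => match n, f with
    | _, .one => fun _ => 1
    | _, .mul => fun v => v 0 * v 1
    | _, .gen c => fun _ => PresentedMonoid.of Knuth (ι c)
  RelMap := fun {_} r => Empty.elim r

/-- Goedel number of a term. -/
def termCode {C : Type} [Encodable C] {k : ℕ} : (LMon C).Term (Empty ⊕ Fin k) → ℕ
  | .var (.inr i) => Nat.pair 0 i
  | .func MSym.one _ => Nat.pair 1 0
  | .func (MSym.gen c) _ => Nat.pair 2 (Encodable.encode c)
  | .func MSym.mul ts => Nat.pair 3 (Nat.pair (termCode (ts 0)) (termCode (ts 1)))

/-- Goedel number of a formula (of a sentence when `k = 0`). -/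
def code {C : Type} [Encodable C] : {k : ℕ} → (LMon C).BoundedFormula Empty k → ℕ
  | _, .falsum => Nat.pair 0 0
  | _, .equal t₁ t₂ => Nat.pair 1 (Nat.pair (termCode t₁) (termCode t₂))
  | _, .imp φ ψ => Nat.pair 2 (Nat.pair (code φ) (code ψ))
  | _, .all φ => Nat.pair 3 (code φ)

end Pool.Agent.H377Z.Plac
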