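import Pool.Agent.H377Z.Plac.Mon
import Pool.Agent.Helper948.ProP.F4a

set_option autoImplicit false

namespace Pool.Agent.H377Z.Plac

open FirstOrder FirstOrder.Language Pool.Agent.Helper948.ProP

/-! ### The Goedel numbering is injective -/

section inj
variable {C : Type} [Encodable C]

theorem termCode_injective {k : ℕ} (s t : (LMon C).Term (Empty ⊕ Fin k))
    (h : termCode s = termCode t) : s = t := by
  induction s generalizing t with
  | var x =>
    rcases x with x | i
    · exact x.elim
    · cases t with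
      | var y =>
        rcases y with y | j
        · exact y.elim
        · simp only [termCode, Nat.pair_eq_pair] at h
          rw [Fin.ext h.2]
      | func g us =>
        cases g <;> simp [termCode, Nat.pair_eq_pair] at h
  | func f ts ih =>
    cases t with
    | var y =>
      rcases y with y | j
      · exact y.elim
      · cases f <;> simp [termCode, Nat.pair_eq_pair] at h
    | func g us =>
      cases f <;> cases g <;> simp only [termCode, Nat.pair_eq_pair, false_and, true_and,
        OfNat.one_ne_ofNat, OfNat.ofNat_ne_one, Nat.reduceEqDiff] at h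
      · congr 1; exact Subsingleton.elim _ _
      · congr 1
        funext i
        fin_cases i
        · exact ih 0 _ h.1
        · exact ih 1 _ h.2
      · have := Encodable.encode_injective h
        subst this
        congr 1; exact Subsingleton.elim _ _

theorem code_injective {k : ℕ} (φ ψ : (LMon C).BoundedFormula Empty k) (h : code φ = code ψ) :
    φ = ψ := by
  induction φ with
  | falsum =>
    cases ψ with
    | falsum => rfl
    | equal a b => simp [code, Nat.pair_eq_pair] at h
    | rel r a => exact Empty.elim r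
    | imp a b => simp [code, Nat.pair_eq_pair] at h
    | all a => simp [code, Nat.pair_eq_pair] at h
  | equal a b =>
    cases ψ with
    | falsum => simp [code, Nat.pair_eq_pair] at h
    | equal c d =>
      simp only [code, Nat.pair_eq_pair, true_and] at h
      rw [termCode_injective _ _ h.1, termCode_injective _ _ h.2]
    | rel r a => exact Empty.elim r
    | imp a b => simp [code, Nat.pair_eq_pair] at h
    | all a => simp [code, Nat.pair_eq_pair] at h
  | rel r a => exact Empty.elim r
  | imp a b iha ihb =>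
    cases ψ with
    | falsum => simp [code, Nat.pair_eq_pair] at h
    | equal c d => simp [code, Nat.pair_eq_pair] at h
    | rel r a => exact Empty.elim r
    | imp c d =>
      simp only [code, Nat.pair_eq_pair, true_and] at h
      rw [iha _ h.1, ihb _ h.2]
    | all a => simp [code, Nat.pair_eq_pair] at h
  | all a iha =>
    cases ψ with
    | falsum => simp [code, Nat.pair_eq_pair] at h
    | equal c d => simp [code, Nat.pair_eq_pair] at h
    | rel r a => exact Empty.elim r
    | imp c d => simp [code, Nat.pair_eq_pair] at h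
    | all b =>
      simp only [code, Nat.pair_eq_pair, true_and] at h
      rw [iha _ h]

end inj

/-! ### Definability -/

section df
variable (L : FirstOrder.Language.{0, 0}) {M : Type} [L.Structure M]

def Df (R : (ℕ → M) → Prop) : Prop := ∃ φ : L.Formula ℕ, ∀ v : ℕ → M, φ.Realize v ↔ R v
def DT (f : (ℕ → M) → M) : Prop := ∃ t : L.Term ℕ, ∀ v : ℕ → M, t.realize v = f v

variable {L}

def cns (a : M) (w : ℕ → M) : ℕ → M := fun n => Nat.casesOn n a w

def shft : ℕ → ℕ ⊕ Fin 1
  | 0 => .inr 0
  | n + 1 => .inl n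

def qall (φ : L.Formula ℕ) : L.Formula ℕ :=
  (BoundedFormula.relabel (n := 1) shft φ : L.BoundedFormula ℕ 1).all

theorem realize_qall (φ : L.Formula ℕ) (v : ℕ → M) :
    (qall φ).Realize v ↔ ∀ a : M, φ.Realize (cns a v) := by
  unfold qall Formula.Realize
  rw [BoundedFormula.realize_all]
  refine forall_congr' fun a => ?_
  rw [BoundedFormula.realize_relabel]
  have h1 : (Sum.elim v ((Fin.snoc default a : Fin 1 → M) ∘ Fin.castAdd 0) ∘ shft)
      = cns a v := by
    funext n
    cases n with
    | zero => rfl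
    | succ n => rfl
  rw [h1]
  have h2 : ((Fin.snoc default a : Fin 1 → M) ∘ Fin.natAdd 1 : Fin 0 → M) = default :=
    Subsingleton.elim _ _
  exact iff_of_eq (congrArg (BoundedFormula.Realize φ (cns a v)) h2)

theorem DT.var (n : ℕ) : DT L (fun v : ℕ → M => v n) := ⟨Term.var n, fun _ => rfl⟩

namespace Df

theorem iff {R S : (ℕ → M) → Prop} (h : ∀ v, R v ↔ S v) (hR : Df L R) : Df L S := by
  obtain ⟨φ, hφ⟩ := hR
  exact ⟨φ, fun v => (hφ v).trans (h v)⟩

theorem bot : Df L (fun _ : ℕ → M => False) := ⟨⊥, fun _ => Formula.realize_bot⟩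

theorem imp {R S : (ℕ → M) → Prop} (hR : Df L R) (hS : Df L S) : Df L (fun v => R v → S v) := by
  obtain ⟨φ, hφ⟩ := hR
  obtain ⟨ψ, hψ⟩ := hS
  exact ⟨φ.imp ψ, fun v => by rw [Formula.realize_imp, hφ, hψ]⟩

theorem not {R : (ℕ → M) → Prop} (hR : Df L R) : Df L (fun v => ¬ R v) := imp hR bot

theorem and {R S : (ℕ → M) → Prop} (hR : Df L R) (hS : Df L S) : Df L (fun v => R v ∧ S v) :=
  iff (fun v => by tauto) (not (imp hR (not hS)))

theorem or {R S : (ℕ → M) → Prop} (hR : Df L R) (hS : Df L S) : Df L (fun v => R v ∨ S v) :=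
  iff (fun v => by tauto) (imp (not hR) hS)

theorem all {S : M → (ℕ → M) → Prop} (hR : Df L (fun v => S (v 0) (fun n => v (n + 1)))) :
    Df L (fun v => ∀ a, S a v) := by
  obtain ⟨φ, hφ⟩ := hR
  refine ⟨qall φ, fun v => ?_⟩
  rw [realize_qall]
  refine forall_congr' fun a => ?_
  rw [hφ]
  rfl

theorem ex {S : M → (ℕ → M) → Prop} (hR : Df L (fun v => S (v 0) (fun n => v (n + 1)))) :
    Df L (fun v => ∃ a, S a v) :=
  iff (fun v => by simp) (not (all (S := fun a v => ¬ S a v) (not hR)))

theorem eq {f g : (ℕ → M) → M} (hf : DT L f) (hg : DT L g) : Df L (fun v => f v = g v) := by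
  obtain ⟨s, hs⟩ := hf
  obtain ⟨t, ht⟩ := hg
  exact ⟨s.equal t, fun v => by rw [Formula.realize_equal, hs, ht]⟩

theorem subst {R : (ℕ → M) → Prop} (hR : Df L R) (F : ℕ → (ℕ → M) → M) (hF : ∀ i, DT L (F i)) :
    Df L (fun v => R (fun i => F i v)) := by
  obtain ⟨φ, hφ⟩ := hR
  choose t ht using hF
  refine ⟨BoundedFormula.subst φ t, fun v => ?_⟩
  unfold Formula.Realize
  rw [BoundedFormula.realize_subst]
  simp only [ht]
  exact hφ _

theorem sub5 {R : M → M → M → M → M → Prop} (hR : Df L (fun v => R (v 0) (v 1) (v 2) (v 3) (v 4)))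
    {a b c d e : (ℕ → M) → M} (ha : DT L a) (hb : DT L b) (hc : DT L c) (hd : DT L d)
    (he : DT L e) : Df L (fun v => R (a v) (b v) (c v) (d v) (e v)) :=
  subst hR (fun i => match i with | 0 => a | 1 => b | 2 => c | 3 => d | _ => e) (fun i =>
    match i with | 0 => ha | 1 => hb | 2 => hc | 3 => hd | _ + 4 => he)

theorem exK {R : (ℕ → M) → Prop} (hR : Df L R) (K : ℕ) :
    Df L (fun v => ∃ w : ℕ → M, (∀ n, w (n + K) = v n) ∧ R w) := by
  induction K with
  | zero =>
    refine iff (fun v => ?_) hR
    constructor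
    · intro h
      exact ⟨v, fun _ => rfl, h⟩
    · rintro ⟨w, hw, h⟩
      have : w = v := funext fun n => hw n
      rw [← this]
      exact h
  | succ K ih =>
    refine iff (R := fun v => ∃ a, ∃ w : ℕ → M, (∀ n, w (n + K) = cns a v n) ∧ R w) ?_ ?_
    · intro v
      constructor
      · rintro ⟨a, w, hw, h⟩
        refine ⟨w, fun n => ?_, h⟩
        have h1 : w (n + 1 + K) = v n := hw (n + 1)
        rw [← h1]
        congr 1
        omega
      · rintro ⟨w, hw, h⟩
        refine ⟨w K, w, fun n => ?_, h⟩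
        cases n with
        | zero => rw [Nat.zero_add]; rfl
        | succ n =>
          change _ = v n
          rw [← hw n]
          congr 1
          omega
    · refine ex (S := fun a v => ∃ w : ℕ → M, (∀ n, w (n + K) = cns a v n) ∧ R w) ?_
      refine iff (fun v => ?_) ih
      have : cns (v 0) (fun n => v (n + 1)) = v := by funext n; cases n <;> rfl
      rw [this]

theorem list {T : Type} (l : List T) {R : T → (ℕ → M) → Prop} (hR : ∀ c, Df L (R c)) :
    Df L (fun v => ∀ c ∈ l, R c v) := by
  induction l with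
  | nil => exact iff (fun v => by simp) (not bot)
  | cons a l ih => exact iff (fun v => by simp) (and (hR a) ih)

end Df

end df

section mon
variable {C M : Type} [Monoid M] [(LMon C).Structure M]

/-- the structure interprets the identity and the product correctly -/
structure Good (C M : Type) [Monoid M] [(LMon C).Structure M] : Prop where
  one : ∀ x : Fin 0 → M, Structure.funMap (L := LMon C) (MSym.one : (LMon C).Functions 0) x = 1
  mul : ∀ x : Fin 2 → M,
    Structure.funMap (L := LMon C) (MSym.mul : (LMon C).Functions 2) x = x 0 * x 1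

variable (hG : Good C M)
include hG

theorem dt_one : DT (LMon C) (fun _ : ℕ → M => 1) :=
  ⟨Term.func (MSym.one : (LMon C).Functions 0) ![], fun _ => hG.one _⟩

theorem dt_mul {f g : (ℕ → M) → M} (hf : DT (LMon C) f) (hg : DT (LMon C) g) :
    DT (LMon C) (fun v => f v * g v) := by
  obtain ⟨s, hs⟩ := hf
  obtain ⟨t, ht⟩ := hg
  refine ⟨Term.func (MSym.mul : (LMon C).Functions 2) ![s, t], fun v => ?_⟩
  rw [Term.realize_func, hG.mul]
  change s.realize v * t.realize v = f v * g v
  rw [hs, ht]

theorem df_atom {a : (ℕ → M) → M} (ha : DT (LMon C) a) : Df (LMon C) (fun v => Atom (a v)) := by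
  refine Df.sub5 (R := fun a _ _ _ _ => Atom a) ?_ ha ha ha ha ha
  exact ((Df.eq (DT.var 0) (dt_one hG)).not).and (Df.all (Df.all
    ((Df.eq (DT.var 2) (dt_mul hG (DT.var 1) (DT.var 0))).imp
      ((Df.eq (DT.var 1) (dt_one hG)).or (Df.eq (DT.var 0) (dt_one hG))))))

theorem df_dv {a b : (ℕ → M) → M} (ha : DT (LMon C) a) (hb : DT (LMon C) b) :
    Df (LMon C) (fun v => Dv (a v) (b v)) := by
  refine Df.sub5 (R := fun a b _ _ _ => Dv a b) ?_ ha hb ha ha ha
  exact Df.ex (Df.ex (Df.eq (DT.var 3) (dt_mul hG (dt_mul hG (DT.var 1) (DT.var 2)) (DT.var 0))))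

theorem df_in {a b : (ℕ → M) → M} (ha : DT (LMon C) a) (hb : DT (LMon C) b) :
    Df (LMon C) (fun v => In (a v) (b v)) := by
  refine Df.sub5 (R := fun a b _ _ _ => In a b) ?_ ha hb ha ha ha
  exact Df.all ((df_atom hG (DT.var 0)).imp ((df_dv hG (DT.var 0) (DT.var 2)).imp
    (Df.eq (DT.var 0) (DT.var 1))))

theorem df_part {a b c : (ℕ → M) → M} (ha : DT (LMon C) a) (hb : DT (LMon C) b)
    (hc : DT (LMon C) c) : Df (LMon C) (fun v => Part (a v) (b v) (c v)) := by
  refine Df.sub5 (R := fun a b c _ _ => Part a b c) ?_ ha hb hc ha ha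
  exact (df_in hG (DT.var 1) (DT.var 2)).and (Df.ex (Df.ex
    ((Df.eq (DT.var 2) (dt_mul hG (dt_mul hG (DT.var 1) (DT.var 4)) (DT.var 0))).and
      ((df_dv hG (DT.var 3) (DT.var 1)).not.and (df_dv hG (DT.var 3) (DT.var 0)).not))))

theorem df_cm {a b c : (ℕ → M) → M} (ha : DT (LMon C) a) (hb : DT (LMon C) b)
    (hc : DT (LMon C) c) : Df (LMon C) (fun v => Cm (a v) (b v) (c v)) :=
  (Df.eq (dt_mul hG ha hb) (dt_mul hG hb ha)).and (Df.eq (dt_mul hG ha hc) (dt_mul hG hc ha))

theorem df_same {a b c d : (ℕ → M) → M} (ha : DT (LMon C) a) (hb : DT (LMon C) b)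
    (hc : DT (LMon C) c) (hd : DT (LMon C) d) :
    Df (LMon C) (fun v => Same (a v) (b v) (c v) (d v)) :=
  ((Df.eq ha hb).and (Df.eq hc hd)).or ((Df.eq ha hb).not.and
    ((df_cm hG (dt_mul hG hd hc) ha hb).or (df_cm hG (dt_mul hG hc hd) ha hb)))

theorem df_cnt {a b c d : (ℕ → M) → M} (ha : DT (LMon C) a) (hb : DT (LMon C) b)
    (hc : DT (LMon C) c) (hd : DT (LMon C) d) :
    Df (LMon C) (fun v => Cnt (a v) (b v) (c v) (d v)) := by
  refine Df.sub5 (R := fun a b c d _ => Cnt a b c d) ?_ ha hb hc hd ha
  exact Df.ex ((df_part hG (DT.var 2) (DT.var 3) (DT.var 0)).and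
    (df_same hG (DT.var 3) (DT.var 1) (DT.var 0) (DT.var 4)))

theorem df_prev {a b c d e : (ℕ → M) → M} (ha : DT (LMon C) a) (hb : DT (LMon C) b)
    (hc : DT (LMon C) c) (hd : DT (LMon C) d) (he : DT (LMon C) e) :
    Df (LMon C) (fun v => Prev (a v) (b v) (c v) (d v) (e v)) := by
  refine Df.sub5 (R := fun a b c d e => Prev a b c d e) ?_ ha hb hc hd he
  exact Df.ex (Df.ex (Df.ex ((df_atom hG (DT.var 2)).and
    ((df_in hG (DT.var 3) (DT.var 1)).and ((df_in hG (DT.var 3) (DT.var 0)).and
    ((df_cnt hG (DT.var 3) (DT.var 5) (DT.var 2) (DT.var 1)).and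
    ((df_cnt hG (DT.var 3) (DT.var 6) (DT.var 2) (DT.var 0)).and
    ((df_cnt hG (DT.var 3) (DT.var 5) (DT.var 7) (dt_mul hG (DT.var 1) (DT.var 3))).and
    (df_cnt hG (DT.var 3) (DT.var 6) (DT.var 7) (dt_mul hG (DT.var 0) (DT.var 4)))))))))))

theorem df_mulR {a b c d : (ℕ → M) → M} (ha : DT (LMon C) a) (hb : DT (LMon C) b)
    (hc : DT (LMon C) c) (hd : DT (LMon C) d) :
    Df (LMon C) (fun v => MulR (a v) (b v) (c v) (d v)) := by
  refine Df.sub5 (R := fun a b c d _ => MulR a b c d) ?_ ha hb hc hd ha
  exact Df.ex (Df.ex ((Df.ex ((df_atom hG (DT.var 0)).and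
    ((df_cnt hG (DT.var 3) (DT.var 2) (DT.var 0) (DT.var 5)).and
    (df_cnt hG (DT.var 3) (DT.var 1) (DT.var 0) (DT.var 6))))).and
    (Df.all ((df_atom hG (DT.var 0)).imp
      (((df_cnt hG (DT.var 3) (DT.var 2) (DT.var 0) (dt_one hG)).and
        (df_cnt hG (DT.var 3) (DT.var 1) (DT.var 0) (dt_one hG))).or
      (df_prev hG (DT.var 3) (DT.var 4) (DT.var 2) (DT.var 1) (DT.var 0)))))))

end mon

section red
variable {M : Type} [Monoid M]

/-- translation of the atomic constraints -/
def Ht (y : M) (w : ℕ → M) : At → Prop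
  | .one i => w i = y
  | .add i j k => w i * w j = w k
  | .mul i j k => MulR y (w i) (w j) (w k)

def Psi (L : List At) (K : ℕ) (v : ℕ → M) : Prop :=
  Atom (v 0) → ∃ w : ℕ → M, (∀ n, w (n + K) = v n) ∧
    ((∀ j ∈ List.range K, In (w K) (w j)) ∧ w 0 = w (K + 1) ∧ ∀ c ∈ L, Ht (w K) w c)

theorem df_psi {C : Type} [(LMon C).Structure M] (hG : Good C M) (L : List At) (K : ℕ) :
    Df (LMon C) (Psi (M := M) L K) := by
  refine (df_atom hG (DT.var 0)).imp (Df.exK (R := fun w =>
    ((∀ j ∈ List.range K, In (w K) (w j)) ∧ w 0 = w (K + 1) ∧ ∀ c ∈ L, Ht (w K) w c)) ?_ K)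
  refine Df.and ?_ (Df.and (Df.eq (DT.var 0) (DT.var (K + 1))) ?_)
  · exact Df.list (R := fun j w => In (w K) (w j)) _ fun j => df_in hG (DT.var K) (DT.var j)
  · refine Df.list (R := fun c w => Ht (w K) w c) _ fun c => ?_
    cases c with
    | one i => exact Df.eq (DT.var i) (DT.var K)
    | add i j k => exact Df.eq (dt_mul hG (DT.var i) (DT.var j)) (DT.var k)
    | mul i j k => exact df_mulR hG (DT.var K) (DT.var i) (DT.var j) (DT.var k)

def bnd : At → ℕ
  | .one i => i + 1
  | .add i j k => i + j + k + 1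
  | .mul i j k => i + j + k + 1

def bndL (L : List At) : ℕ := (L.map bnd).sum + 1

theorem bnd_le {L : List At} {c : At} (hc : c ∈ L) : bnd c < bndL L := by
  unfold bndL
  have := List.single_le_sum (l := L.map bnd) (fun _ _ => Nat.zero_le _) (bnd c)
    (List.mem_map_of_mem hc)
  omega

end red

theorem psi_iff {A : Type} [LinearOrder A] [Infinite A] (L : List At) (n : ℕ) (y : A)
    (v : ℕ → Plactic A) (h0 : v 0 = gn y) (h1 : v 1 = gn y ^ n) :
    Psi L (bndL L) v ↔ ∃ x : ℕ → ℕ, x 0 = n ∧ ∀ c ∈ L, At.Holds x c := by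
  classical
  have hK : 0 < bndL L := by unfold bndL; omega
  constructor
  · intro h
    obtain ⟨w, hw, hr, e0, hc⟩ := h (h0 ▸ atom_iff.2 ⟨y, rfl⟩)
    have hy : w (bndL L) = gn y := by simpa [h0] using hw 0
    have ht : w (bndL L + 1) = gn y ^ n := by rw [add_comm, hw 1, h1]
    rw [hy] at hr hc
    have hr' : ∀ j, j < bndL L → ∃ m : ℕ, w j = gn y ^ m := fun j hj =>
      in_iff.1 (hr j (List.mem_range.2 hj))
    choose! x hx using hr'
    refine ⟨x, ?_, ?_⟩
    · rw [hx 0 hK, ht] at e0
      exact gn_pow_inj e0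
    · intro c hcL
      have hb := bnd_le hcL
      have h2 := hc c hcL
      cases c with
      | one i =>
        simp only [bnd] at hb
        change w i = gn y at h2
        rw [hx i (by omega)] at h2
        exact gn_pow_inj (h2.trans (pow_one _).symm)
      | add i j k =>
        simp only [bnd] at hb
        change w i * w j = w k at h2
        rw [hx i (by omega), hx j (by omega), hx k (by omega), ← pow_add] at h2
        exact gn_pow_inj h2
      | mul i j k =>
        simp only [bnd] at hb
        change MulR (gn y) (w i) (w j) (w k) at h2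
        rw [hx i (by omega), hx j (by omega), hx k (by omega)] at h2
        exact (mulR_iff y _ _ _).1 h2
  · rintro ⟨x, hx0, hx⟩ _
    let w : ℕ → Plactic A := fun j => if j < bndL L then gn y ^ (x j) else v (j - bndL L)
    have hwl : ∀ j, j < bndL L → w j = gn y ^ (x j) := fun j hj => if_pos hj
    have hwv : ∀ m, w (m + bndL L) = v m := by
      intro m
      change (if m + bndL L < bndL L then _ else v (m + bndL L - bndL L)) = v m
      rw [if_neg (by omega), Nat.add_sub_cancel]
    have hy : w (bndL L) = gn y := by simpa [h0] using hwv 0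
    have ht : w (bndL L + 1) = gn y ^ n := by rw [add_comm, hwv 1, h1]
    refine ⟨w, hwv, ?_, ?_, ?_⟩
    · intro j hj
      rw [hy, hwl j (List.mem_range.1 hj)]
      exact in_iff.2 ⟨_, rfl⟩
    · rw [ht, hwl 0 hK, hx0]
    · intro c hcL
      have hb := bnd_le hcL
      have h2 := hx c hcL
      rw [hy]
      cases c with
      | one j =>
        simp only [bnd] at hb
        simp only [At.Holds] at h2
        change w j = gn y
        rw [hwl j (by omega), h2, pow_one]
      | add j k l =>
        simp only [bnd] at hb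
        simp only [At.Holds] at h2
        change w j * w k = w l
        rw [hwl j (by omega), hwl k (by omega), hwl l (by omega), ← pow_add, h2]
      | mul j k l =>
        simp only [bnd] at hb
        simp only [At.Holds] at h2
        change MulR (gn y) (w j) (w k) (w l)
        rw [hwl j (by omega), hwl k (by omega), hwl l (by omega)]
        exact (mulR_iff y _ _ _).2 h2

/-! ### The reduction -/

section num
variable {C : Type}

def num : ℕ → (LMon C).Term (Empty ⊕ Fin 2)
  | 0 => Term.func (MSym.one : (LMon C).Functions 0) ![]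
  | n + 1 => Term.func (MSym.mul : (LMon C).Functions 2) ![num n, Term.var (Sum.inr 0)]

theorem realize_num {M : Type} [Monoid M] [(LMon C).Structure M] (hG : Good C M) (n : ℕ)
    (v : Empty ⊕ Fin 2 → M) : (num (C := C) n).realize v = v (Sum.inr 0) ^ n := by
  induction n with
  | zero => rw [pow_zero]; exact hG.one _
  | succ n ih =>
    rw [num, Term.realize_func, hG.mul, pow_succ, ← ih]
    rfl

theorem primrec_num [Encodable C] : Primrec (fun n => termCode (num (C := C) n)) := by
  have : (fun n => termCode (num (C := C) n)) = (fun n => Nat.rec (Nat.pair 1 0)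
      (fun _ c => Nat.pair 3 (Nat.pair c (Nat.pair 0 0))) n) := by
    funext n
    induction n with
    | zero => rfl
    | succ n ih =>
      show Nat.pair 3 (Nat.pair (termCode (num n)) (Nat.pair 0 0)) = _
      rw [ih]
  rw [this]
  refine Primrec.nat_rec₁ _ ?_
  exact Primrec₂.natPair.comp (Primrec.const 3)
    (Primrec₂.natPair.comp Primrec.snd (Primrec.const _))

/-- The sentence `∀ y t, t = y ^ n → Φ y t`. -/
def sig (Φ : (LMon C).BoundedFormula Empty 2) (n : ℕ) : (LMon C).Sentence :=
  (((BoundedFormula.equal (Term.var (Sum.inr 1)) (num n)).imp Φ).all.all :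
    (LMon C).BoundedFormula Empty 0)

theorem primrec_sig [Encodable C] (Φ : (LMon C).BoundedFormula Empty 2) :
    Primrec (fun n => code (sig Φ n)) := by
  have : ∀ n, code (sig Φ n) = Nat.pair 3 (Nat.pair 3 (Nat.pair 2 (Nat.pair (Nat.pair 1
      (Nat.pair (Nat.pair 0 1) (termCode (num (C := C) n)))) (code Φ)))) := fun _ => rfl
  simp only [this]
  exact Primrec₂.natPair.comp (Primrec.const _) (Primrec₂.natPair.comp (Primrec.const _)
    (Primrec₂.natPair.comp (Primrec.const _)
    (Primrec₂.natPair.comp (Primrec₂.natPair.comp (Primrec.const _)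
      (Primrec₂.natPair.comp (Primrec.const _) primrec_num)) (Primrec.const _))))

def gmap : ℕ → Empty ⊕ Fin 2
  | 0 => .inr 0
  | _ + 1 => .inr 1

theorem realize_sig {M : Type} [Monoid M] [(LMon C).Structure M] (hG : Good C M)
    (φ : (LMon C).Formula ℕ) (n : ℕ) :
    M ⊨ sig (BoundedFormula.relabel (n := 2) gmap φ) n ↔
      ∀ y : M, φ.Realize (cns y (fun _ => y ^ n)) := by
  unfold sig Sentence.Realize Formula.Realize
  rw [BoundedFormula.realize_all]
  simp only [BoundedFormula.realize_all, BoundedFormula.realize_imp]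
  have key : ∀ (v0 : Empty → M) (x0 : Fin 0 → M) (a b : M),
      (BoundedFormula.relabel (n := 2) gmap φ : (LMon C).BoundedFormula Empty 2).Realize v0
        (Fin.snoc (Fin.snoc x0 a : Fin 1 → M) b : Fin 2 → M) ↔
      BoundedFormula.Realize φ (cns a (fun _ => b)) default := by
    intro v0 x0 a b
    rw [BoundedFormula.realize_relabel]
    have h1 : (Sum.elim v0 ((Fin.snoc (Fin.snoc x0 a : Fin 1 → M) b : Fin 2 → M)
        ∘ Fin.castAdd 0) ∘ gmap) = cns a (fun _ => b) := by
      funext s
      cases s <;> rfl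
    rw [h1]
    exact iff_of_eq (congrArg (BoundedFormula.Realize φ _) (Subsingleton.elim _ _))
  constructor
  · intro h y
    refine (key _ _ _ _).1 (h y (y ^ n) ?_)
    show _ = _
    rw [realize_num hG]
    rfl
  · intro h a t ht
    have ht' : t = a ^ n := Eq.trans (b := _) ht (realize_num hG n _)
    rw [ht']
    exact (key _ _ _ _).2 (h a)

end num

/-- the halting set as a set of naturals -/
def HaltS (n : ℕ) : Prop := (Nat.Partrec.Code.eval (Denumerable.ofNat Nat.Partrec.Code n) 0).Dom

theorem haltS_re : REPred HaltS := by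
  have h := ComputablePred.halting_problem_re 0
  exact Partrec.comp h (Computable.ofNat Nat.Partrec.Code)

theorem haltS_not_computable : ¬ ComputablePred HaltS := by
  intro h
  refine ComputablePred.halting_problem 0 ?_
  obtain ⟨f, hf, hfe⟩ := ComputablePred.computable_iff.1 h
  refine ComputablePred.computable_iff.2 ⟨fun c => f (Encodable.encode c),
    hf.comp Computable.encode, ?_⟩
  funext c
  have := congrFun hfe (Encodable.encode c)
  rw [← this]
  simp [HaltS]

theorem undecidable {A : Type} [LinearOrder A] [Infinite A] {C : Type} [Encodable C] (ι : C → A) :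
    ¬ ∃ f : ℕ → Bool, Computable f ∧ ∀ φ : (LMon C).Sentence,
      f (code φ) = true ↔ @Sentence.Realize (LMon C) (Plactic A) (plStructure ι) φ := by
  rintro ⟨f, hf, hfe⟩
  let _ := plStructure ι
  have hG : Good C (Plactic A) := ⟨fun _ => rfl, fun _ => rfl⟩
  obtain ⟨L, hL⟩ := F4a.exists_atoms haltS_re
  obtain ⟨φ, hφ⟩ := df_psi hG L (bndL L)
  set Φ : (LMon C).BoundedFormula Empty 2 := BoundedFormula.relabel (n := 2) gmap φ with hΦd
  have hΦ : ∀ n : ℕ, Plactic A ⊨ sig Φ n ↔ HaltS n := by
    intro n
    rw [hΦd, realize_sig hG φ n, hL]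
    simp only [hφ]
    constructor
    · intro h
      obtain ⟨y⟩ : Nonempty A := inferInstance
      exact (psi_iff L n y _ rfl rfl).1 (h (gn y))
    · intro h y hy
      obtain ⟨y, rfl⟩ := atom_iff.1 (show Atom y from hy)
      exact (psi_iff L n y _ rfl rfl).2 h hy
  apply haltS_not_computable
  refine ComputablePred.computable_iff.2 ⟨fun n => f (code (sig Φ n)),
    hf.comp (primrec_sig Φ).to_comp, ?_⟩
  funext n
  apply propext
  rw [← hΦ n]
  exact (hfe _).symm

end Pool.Agent.H377Z.Plac
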