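import Pool.Agent.H377Z.Plac.Defs

set_option autoImplicit false

namespace Pool.Agent.H377Z.Plac

section rels
variable {M : Type} [Monoid M]

def Atom (x : M) : Prop := ¬ x = 1 ∧ ∀ u v, x = u * v → u = 1 ∨ v = 1
def Dv (a w : M) : Prop := ∃ u v, w = u * a * v
def In (y x : M) : Prop := ∀ b, Atom b → Dv b x → b = y
def Part (w a x : M) : Prop := In a x ∧ ∃ u v, w = u * x * v ∧ ¬ Dv a u ∧ ¬ Dv a v
def Cm (z a b : M) : Prop := z * a = a * z ∧ z * b = b * z
def Same (a b x y : M) : Prop := (a = b ∧ x = y) ∨ (¬ a = b ∧ (Cm (y * x) a b ∨ Cm (x * y) a b))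
def Cnt (y w c p : M) : Prop := ∃ x, Part w c x ∧ Same c y x p
def Prev (y p w₁ w₂ c : M) : Prop :=
  ∃ d i j, Atom d ∧ In y i ∧ In y j ∧ Cnt y w₁ d i ∧ Cnt y w₂ d j ∧ Cnt y w₁ c (i * y) ∧
    Cnt y w₂ c (j * p)
def MulR (y p q r : M) : Prop :=
  ∃ w₁ w₂, (∃ t, Atom t ∧ Cnt y w₁ t q ∧ Cnt y w₂ t r) ∧
    ∀ c, Atom c → (Cnt y w₁ c 1 ∧ Cnt y w₂ c 1) ∨ Prev y p w₁ w₂ c

end rels

variable {A : Type} [LinearOrder A]

/-- generator -/
abbrev gn (a : A) : Plactic A := PresentedMonoid.of Knuth a

abbrev mk' (l : List A) : Plactic A := PresentedMonoid.mk Knuth (FreeMonoid.ofList l)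

lemma mk'_nil : (mk' [] : Plactic A) = 1 := rfl
lemma mk'_cons (a : A) (l : List A) : mk' (a :: l) = gn a * mk' l := rfl
lemma mk'_append (s t : List A) : mk' (s ++ t) = mk' s * mk' t := rfl
lemma exists_mk' (w : Plactic A) : ∃ l, w = mk' l := by
  obtain ⟨a, rfl⟩ := PresentedMonoid.surjective_mk w
  exact ⟨a.toList, rfl⟩

def contH : Plactic A →* Multiplicative (Multiset A) :=
  PresentedMonoid.lift (fun a => Multiplicative.ofAdd ({a} : Multiset A)) (by
    intro a b h
    cases h <;> simp only [map_mul, FreeMonoid.lift_eval_of] <;> ac_rfl)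

def cont (w : Plactic A) : Multiset A := Multiplicative.toAdd (contH w)

@[simp] lemma cont_one : cont (1 : Plactic A) = 0 := by simp [cont]
@[simp] lemma cont_mul (u v : Plactic A) : cont (u * v) = cont u + cont v := by simp [cont]
@[simp] lemma cont_gn (a : A) : cont (gn a) = {a} := rfl
@[simp] lemma cont_pow (a : A) (k : ℕ) : cont (gn a ^ k) = Multiset.replicate k a := by
  induction k with
  | zero => simp
  | succ k ih => rw [pow_succ', cont_mul, ih, Multiset.replicate_succ]; simp
lemma cont_mk' (l : List A) : cont (mk' l) = (l : Multiset A) := by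
  induction l with
  | nil => simp [mk'_nil]
  | cons a l ih => rw [mk'_cons, cont_mul, ih]; simp

lemma eq_one_of_cont {w : Plactic A} (h : cont w = 0) : w = 1 := by
  obtain ⟨l, rfl⟩ := exists_mk' w
  rw [cont_mk'] at h
  have : l = [] := by simpa using h
  rw [this, mk'_nil]

lemma gn_inj {a b : A} (h : gn a = gn b) : a = b := by
  simpa using congrArg cont h

lemma gn_pow_inj {a : A} {k l : ℕ} (h : gn a ^ k = gn a ^ l) : k = l := by
  simpa using congrArg (fun w => Multiset.card (cont w)) h

lemma atom_iff {x : Plactic A} : Atom x ↔ ∃ a, x = gn a := by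
  constructor
  · rintro ⟨h1, h2⟩
    obtain ⟨l, rfl⟩ := exists_mk' x
    cases l with
    | nil => exact absurd rfl h1
    | cons a l =>
      rcases h2 _ _ (mk'_cons a l) with h | h
      · simpa using congrArg cont h
      · exact ⟨a, by rw [mk'_cons, h, mul_one]⟩
  · rintro ⟨a, rfl⟩
    refine ⟨fun h => by simpa using congrArg cont h, fun u v h => ?_⟩
    have h1 := congrArg (fun w => Multiset.card (cont w)) h
    simp only [cont_gn, Multiset.card_singleton, cont_mul, Multiset.card_add] at h1
    rcases Nat.eq_zero_or_pos (Multiset.card (cont u)) with h0 | h0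
    · exact Or.inl (eq_one_of_cont (Multiset.card_eq_zero.1 h0))
    · exact Or.inr (eq_one_of_cont (Multiset.card_eq_zero.1 (by omega)))

lemma dv_iff {a : A} {w : Plactic A} : Dv (gn a) w ↔ a ∈ cont w := by
  constructor
  · rintro ⟨u, v, rfl⟩; simp
  · intro h
    obtain ⟨l, rfl⟩ := exists_mk' w
    rw [cont_mk'] at h
    obtain ⟨s, t, rfl⟩ := List.append_of_mem (Multiset.mem_coe.1 h)
    exact ⟨mk' s, mk' t, by rw [mk'_append, mk'_cons, mul_assoc]⟩

lemma in_iff {a : A} {x : Plactic A} : In (gn a) x ↔ ∃ k : ℕ, x = gn a ^ k := by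
  constructor
  · intro h
    obtain ⟨l, rfl⟩ := exists_mk' x
    have h1 : ∀ b ∈ l, b = a := fun b hb =>
      gn_inj (h (gn b) (atom_iff.2 ⟨b, rfl⟩) (dv_iff.2 (by rw [cont_mk']; exact hb)))
    clear h
    induction l with
    | nil => exact ⟨0, rfl⟩
    | cons b l ih =>
      obtain ⟨k, hk⟩ := ih fun c hc => h1 c (List.mem_cons_of_mem _ hc)
      exact ⟨k + 1, by rw [mk'_cons, hk, h1 b List.mem_cons_self, pow_succ']⟩
  · rintro ⟨k, rfl⟩ b hb hd
    obtain ⟨b, rfl⟩ := atom_iff.1 hb
    rw [dv_iff, cont_pow] at hd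
    rw [Multiset.eq_of_mem_replicate hd]

lemma part_sound {a : A} {w x : Plactic A} (h : Part w (gn a) x) :
    x = gn a ^ (Multiset.count a (cont w)) := by
  obtain ⟨h1, u, v, rfl, hu, hv⟩ := h
  obtain ⟨k, rfl⟩ := in_iff.1 h1
  rw [dv_iff] at hu hv
  simp [Multiset.count_eq_zero.2 hu, Multiset.count_eq_zero.2 hv]

/-! ### two letters -/

lemma knuth1 {a b : A} (h : a < b) : gn a * gn b * gn a = gn b * gn a * gn a :=
  PresentedMonoid.mk_eq_mk_of_rel (Knuth.left a a b le_rfl h)

lemma knuth2 {a b : A} (h : a < b) : gn b * gn a * gn b = gn b * gn b * gn a :=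
  PresentedMonoid.mk_eq_mk_of_rel (Knuth.right a b b h le_rfl)

lemma cm_col {a b : A} (h : a < b) (k : ℕ) : Cm (gn b ^ k * gn a ^ k) (gn a) (gn b) := by
  have h1 : Commute (gn b * gn a) (gn a) := by
    change _ = _
    rw [← knuth1 h, mul_assoc]
  have h2 : Commute (gn b * gn a) (gn b) := by
    change _ = _
    rw [knuth2 h, mul_assoc]
  have h3 : gn b ^ k * gn a ^ k = (gn b * gn a) ^ k := by
    induction k with
    | zero => simp
    | succ k ih =>
      rw [pow_succ' (gn b), pow_succ (gn a), mul_assoc, ← mul_assoc (gn b ^ k), ih, ← mul_assoc,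
        ← (h2.pow_left k).eq, mul_assoc, ← pow_succ]
  rw [h3]
  exact ⟨(h1.pow_left k).eq, (h2.pow_left k).eq⟩

/-- the action of a letter: `a` adds one, `b` subtracts one, other letters kill -/
def act (a b c : A) : Function.End (Option ℕ) :=
  fun o => if c = a then o.map (· + 1) else if c = b then o.map (· - 1) else none

lemma act_none (a b c : A) : act a b c none = none := by
  unfold act; split_ifs <;> rfl

lemma act_a (a b : A) (n : ℕ) : act a b a (some n) = some (n + 1) := by simp [act]
lemma act_b {a b : A} (h : a < b) (n : ℕ) : act a b b (some n) = some (n - 1) := by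
  simp [act, h.ne']
lemma act_o {a b c : A} (h1 : c ≠ a) (h2 : c ≠ b) (o : Option ℕ) : act a b c o = none := by
  simp [act, h1, h2]

lemma act_three {a b : A} (x y z : A) (h : ¬ ((x = a ∨ x = b) ∧ (y = a ∨ y = b) ∧ (z = a ∨ z = b))) :
    act a b x * act a b y * act a b z = fun _ => none := by
  funext o
  change act a b x (act a b y (act a b z o)) = none
  by_cases hz : z = a ∨ z = b
  · by_cases hy : y = a ∨ y = b
    · have hx : ¬ (x = a ∨ x = b) := fun hx => h ⟨hx, hy, hz⟩
      push Not at hx
      exact act_o hx.1 hx.2 _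
    · push Not at hy
      rw [act_o hy.1 hy.2, act_none]
  · push Not at hz
    rw [act_o hz.1 hz.2, act_none, act_none]

def actH {a b : A} (h : a < b) : Plactic A →* Function.End (Option ℕ) :=
  PresentedMonoid.lift (act a b) (by
    intro u v huv
    cases huv with
    | left x y z h1 h2 =>
      simp only [map_mul, FreeMonoid.lift_eval_of]
      by_cases hc : (x = a ∨ x = b) ∧ (y = a ∨ y = b) ∧ (z = a ∨ z = b)
      · obtain ⟨hx, hy, hz⟩ := hc
        have hz' : z = b := by
          rcases hz with rfl | rfl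
          · rcases hy with rfl | rfl
            · exact absurd h2 (lt_irrefl _)
            · exact absurd (h2.trans h) (lt_irrefl _)
          · rfl
        have hy' : y = a := by
          rcases hy with rfl | rfl
          · rfl
          · exact absurd (hz' ▸ h2) (lt_irrefl _)
        have hx' : x = a := by
          rcases hx with rfl | rfl
          · rfl
          · exact absurd (lt_of_lt_of_le h (hy' ▸ h1)) (lt_irrefl _)
        rw [hx', hy', hz']
        funext o
        change act a b a (act a b b (act a b a o)) = act a b b (act a b a (act a b a o))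
        cases o with
        | none => simp [act_none]
        | some n => simp [act_a, act_b h]
      · rw [act_three x z y (by tauto), act_three z x y (by tauto)]
    | right x y z h1 h2 =>
      simp only [map_mul, FreeMonoid.lift_eval_of]
      by_cases hc : (x = a ∨ x = b) ∧ (y = a ∨ y = b) ∧ (z = a ∨ z = b)
      · obtain ⟨hx, hy, hz⟩ := hc
        have hx' : x = a := by
          rcases hx with rfl | rfl
          · rfl
          · rcases hy with rfl | rfl
            · exact absurd (h1.trans h) (lt_irrefl _)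
            · exact absurd h1 (lt_irrefl _)
        have hy' : y = b := by
          rcases hy with rfl | rfl
          · exact absurd (hx' ▸ h1) (lt_irrefl _)
          · rfl
        have hz' : z = b := by
          rcases hz with rfl | rfl
          · exact absurd (lt_of_lt_of_le h (hy' ▸ h2)) (lt_irrefl _)
          · rfl
        rw [hx', hy', hz']
        funext o
        change act a b b (act a b a (act a b b o)) = act a b b (act a b b (act a b a o))
        cases o with
        | none => simp [act_none]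
        | some n => simp [act_a, act_b h]
      · rw [act_three y x z (by tauto), act_three y z x (by tauto)])

lemma actH_mul {a b : A} (h : a < b) (u v : Plactic A) (o : Option ℕ) :
    actH h (u * v) o = actH h u (actH h v o) := by rw [map_mul]; rfl

lemma actH_a {a b : A} (h : a < b) (n : ℕ) : actH h (gn a) (some n) = some (n + 1) := act_a a b n
lemma actH_b {a b : A} (h : a < b) (n : ℕ) : actH h (gn b) (some n) = some (n - 1) := act_b h n

lemma actH_a_pow {a b : A} (h : a < b) (k n : ℕ) : actH h (gn a ^ k) (some n) = some (n + k) := by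
  induction k with
  | zero => rw [pow_zero, map_one]; rfl
  | succ k ih => rw [pow_succ', actH_mul, ih, actH_a, add_assoc]

lemma actH_b_pow {a b : A} (h : a < b) (k n : ℕ) : actH h (gn b ^ k) (some n) = some (n - k) := by
  induction k with
  | zero => rw [pow_zero, map_one]; rfl
  | succ k ih => rw [pow_succ', actH_mul, ih, actH_b, Nat.sub_sub]

lemma cm_sound1 {a b : A} (h : a < b) {k l : ℕ} (hc : Cm (gn b ^ l * gn a ^ k) (gn a) (gn b)) :
    k = l := by
  have h1 := congrArg (fun w => actH h w (some 0)) hc.1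
  have h2 := congrArg (fun w => actH h w (some 0)) hc.2
  simp only [actH_mul, actH_a, actH_b, actH_a_pow, actH_b_pow, Option.some.injEq] at h1 h2
  omega

lemma cm_sound2 {a b : A} (h : a < b) {k l : ℕ} (hc : Cm (gn a ^ k * gn b ^ l) (gn a) (gn b)) :
    k = l := by
  have h1 := congrArg (fun w => actH h w (some 0)) hc.1
  have h2 := congrArg (fun w => actH h w (some 0)) hc.2
  simp only [actH_mul, actH_a, actH_b, actH_a_pow, actH_b_pow, Option.some.injEq] at h1 h2
  omega

lemma same_iff {a b : A} {k l : ℕ} : Same (gn a) (gn b) (gn a ^ k) (gn b ^ l) ↔ k = l := by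
  constructor
  · rintro (⟨h1, h2⟩ | ⟨h1, h2⟩)
    · rw [← h1] at h2
      exact gn_pow_inj h2
    · have hab : a ≠ b := fun e => h1 (by rw [e])
      rcases lt_or_gt_of_ne hab with h | h
      · exact h2.elim (cm_sound1 h) (cm_sound2 h)
      · rcases h2 with h2 | h2
        · exact (cm_sound2 h ⟨h2.2, h2.1⟩).symm
        · exact (cm_sound1 h ⟨h2.2, h2.1⟩).symm
  · rintro rfl
    rcases lt_trichotomy a b with h | rfl | h
    · exact Or.inr ⟨fun e => h.ne (gn_inj e), Or.inl (cm_col h k)⟩
    · exact Or.inl ⟨rfl, rfl⟩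
    · exact Or.inr ⟨fun e => h.ne' (gn_inj e), Or.inr ⟨(cm_col h k).2, (cm_col h k).1⟩⟩

lemma cnt_sound {y c : A} {w : Plactic A} {k : ℕ} (h : Cnt (gn y) w (gn c) (gn y ^ k)) :
    Multiset.count c (cont w) = k := by
  obtain ⟨x, h1, h2⟩ := h
  rw [part_sound h1] at h2
  exact same_iff.1 h2

def Blocky (w : Plactic A) : Prop :=
  ∀ d : A, ∃ u v, w = u * gn d ^ (Multiset.count d (cont w)) * v ∧ d ∉ cont u ∧ d ∉ cont v

lemma cnt_complete {w : Plactic A} (hw : Blocky w) (y c : A) {k : ℕ}
    (h : Multiset.count c (cont w) = k) : Cnt (gn y) w (gn c) (gn y ^ k) := by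
  obtain ⟨u, v, h1, h2, h3⟩ := hw c
  rw [h] at h1
  exact ⟨gn c ^ k, ⟨in_iff.2 ⟨k, rfl⟩, u, v, h1, mt dv_iff.1 h2, mt dv_iff.1 h3⟩, same_iff.2 rfl⟩

lemma blocky_one : Blocky (1 : Plactic A) := fun d => ⟨1, 1, by simp, by simp, by simp⟩

lemma blocky_mul {w : Plactic A} (hw : Blocky w) {c : A} (hc : c ∉ cont w) (e : ℕ) :
    Blocky (w * gn c ^ e) := by
  intro d
  by_cases h : d = c
  · subst h
    refine ⟨w, 1, ?_, hc, by simp⟩
    simp [Multiset.count_eq_zero.2 hc]
  · obtain ⟨u, v, h1, h2, h3⟩ := hw d
    refine ⟨u, v * gn c ^ e, ?_, h2, ?_⟩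
    · have : Multiset.count d (cont (w * gn c ^ e)) = Multiset.count d (cont w) := by
        simp [Multiset.count_replicate, Ne.symm h]
      rw [this, ← mul_assoc, ← h1]
    · simp only [cont_mul, cont_pow, Multiset.mem_add, not_or]
      exact ⟨h3, fun hh => h (Multiset.eq_of_mem_replicate hh)⟩

def blk (c : ℕ → A) (e : ℕ → ℕ) : ℕ → Plactic A
  | 0 => 1
  | n + 1 => blk c e n * gn (c n) ^ e n

lemma count_blk (c : ℕ → A) (e : ℕ → ℕ) (n : ℕ) (d : A) :
    Multiset.count d (cont (blk c e n)) = ∑ j ∈ Finset.range n, if c j = d then e j else 0 := by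
  induction n with
  | zero => simp [blk]
  | succ n ih => simp [blk, ih, Finset.sum_range_succ, Multiset.count_replicate]

lemma count_blk_self {c : ℕ → A} (hc : Function.Injective c) (e : ℕ → ℕ) (n j : ℕ) :
    Multiset.count (c j) (cont (blk c e n)) = if j < n then e j else 0 := by
  rw [count_blk]
  simp only [hc.eq_iff]
  rw [Finset.sum_ite_eq' (Finset.range n) j e]
  simp

lemma count_blk_other {c : ℕ → A} (e : ℕ → ℕ) (n : ℕ) {d : A} (h : ∀ j, c j ≠ d) :
    Multiset.count d (cont (blk c e n)) = 0 := by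
  rw [count_blk]
  simp [h]

lemma blocky_blk {c : ℕ → A} (hc : Function.Injective c) (e : ℕ → ℕ) (n : ℕ) :
    Blocky (blk c e n) := by
  induction n with
  | zero => exact blocky_one
  | succ n ih =>
    refine blocky_mul ih ?_ _
    rw [← Multiset.count_eq_zero, count_blk_self hc]
    simp

theorem mulR_iff [Infinite A] (y : A) (m n s : ℕ) :
    MulR (gn y) (gn y ^ m) (gn y ^ n) (gn y ^ s) ↔ m * n = s := by
  constructor
  · rintro ⟨w₁, w₂, ⟨t, ht, h1, h2⟩, h⟩
    obtain ⟨t, rfl⟩ := atom_iff.1 ht
    have key : ∀ k, ∀ c : A, Multiset.count c (cont w₁) = k →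
        Multiset.count c (cont w₂) = m * k := by
      intro k
      induction k with
      | zero =>
        intro c hc
        rcases h (gn c) (atom_iff.2 ⟨c, rfl⟩) with ⟨_, h4⟩ | ⟨d, i, j, _, hi, _, _, _, h5, _⟩
        · exact cnt_sound (k := 0) (by rwa [pow_zero])
        · obtain ⟨i, rfl⟩ := in_iff.1 hi
          rw [← pow_succ] at h5
          have := cnt_sound h5
          omega
      | succ k ih =>
        intro c hc
        rcases h (gn c) (atom_iff.2 ⟨c, rfl⟩) with ⟨h3, _⟩ | ⟨d, i, j, hd, hi, hj, h3, h4, h5, h6⟩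
        · have := cnt_sound (k := 0) (by rwa [pow_zero] : Cnt (gn y) w₁ (gn c) (gn y ^ 0))
          omega
        · obtain ⟨d, rfl⟩ := atom_iff.1 hd
          obtain ⟨i, rfl⟩ := in_iff.1 hi
          obtain ⟨j, rfl⟩ := in_iff.1 hj
          rw [← pow_succ] at h5
          rw [← pow_add] at h6
          have e3 := cnt_sound h3
          have e4 := cnt_sound h4
          have e5 := cnt_sound h5
          have e6 := cnt_sound h6
          have e7 := ih d (by omega)
          rw [e6, ← e4, e7]
          ring
    rw [← cnt_sound h2, key n t (cnt_sound h1)]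
  · rintro rfl
    let c : ℕ → A := Infinite.natEmbedding A
    have hc : Function.Injective c := (Infinite.natEmbedding A).injective
    have b1 := blocky_blk hc (fun j => j) (n + 1)
    have b2 := blocky_blk hc (fun j => m * j) (n + 1)
    refine ⟨blk c (fun j => j) (n + 1), blk c (fun j => m * j) (n + 1),
      ⟨gn (c n), atom_iff.2 ⟨_, rfl⟩, cnt_complete b1 _ _ ?_, cnt_complete b2 _ _ ?_⟩, ?_⟩
    · rw [count_blk_self hc]; simp
    · rw [count_blk_self hc]; simp
    · intro d hd
      obtain ⟨d, rfl⟩ := atom_iff.1 hd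
      by_cases h : ∃ j, j < n ∧ c (j + 1) = d
      · obtain ⟨j, hj, rfl⟩ := h
        right
        refine ⟨gn (c j), gn y ^ j, gn y ^ (m * j), atom_iff.2 ⟨_, rfl⟩, in_iff.2 ⟨_, rfl⟩,
          in_iff.2 ⟨_, rfl⟩, cnt_complete b1 _ _ ?_, cnt_complete b2 _ _ ?_, ?_, ?_⟩
        · rw [count_blk_self hc, if_pos (by omega)]
        · rw [count_blk_self hc, if_pos (by omega)]
        · rw [← pow_succ]
          refine cnt_complete b1 _ _ ?_
          rw [count_blk_self hc, if_pos (by omega)]
        · rw [← pow_add]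
          refine cnt_complete b2 _ _ ?_
          rw [count_blk_self hc, if_pos (by omega)]
          ring
      · left
        have key : ∀ e : ℕ → ℕ, e 0 = 0 → Multiset.count d (cont (blk c e (n + 1))) = 0 := by
          intro e he
          by_cases h2 : ∃ j, c j = d
          · obtain ⟨j, rfl⟩ := h2
            rw [count_blk_self hc]
            split_ifs with h3
            · cases j with
              | zero => exact he
              | succ j => exact absurd ⟨j, by omega, rfl⟩ h
            · rfl
          · push Not at h2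
            exact count_blk_other _ _ h2
        exact ⟨by simpa using cnt_complete b1 y d (key _ rfl),
          by simpa using cnt_complete b2 y d (key _ (by simp))⟩

end Pool.Agent.H377Z.Plac
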